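import Pool.Agent.K2h1.Q15.Q_HW

/-! t_Q_AMi is in Q_HW.lean (helper1). -/
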