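import Mathlib
import Pool.Agent.Z15.Q.Stm

/-! Task Q_FORM (helper1). -/

set_option autoImplicit false

namespace Pool.Agent.K2h1.Q15

open Module Pool.Agent.Z15.Q

theorem sum_prod' {X : Type} [Fintype X] {i : ℕ} (f : Fin i → X → ℂ) :
    ∑ β : Fin i → X, ∏ m, f m (β m) = ∏ m, ∑ x, f m x := by
  classical
  rw [Finset.prod_univ_sum, Fintype.piFinset_univ]

section

variable {J : Type} {K A : J → Type} [Fintype J] [∀ j, Fintype (K j)] [∀ j, Fintype (A j)]
  {T : Type} [AddCommGroup T] [Module ℂ T]

/-- the real basis `t s`, `I t s` -/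
noncomputable def rvec (t : Basis (Σ j, K j × A j) ℂ T) (β : (Σ j, K j × A j) × Bool) : T :=
  if β.2 then Complex.I • t β.1 else t β.1

/-- the real coordinates -/
noncomputable def rco (t : Basis (Σ j, K j × A j) ℂ T) (β : (Σ j, K j × A j) × Bool) (u : T) : ℝ :=
  if β.2 then (t.repr u β.1).im else (t.repr u β.1).re

open Classical in
/-- the real coordinates in terms of the complex ones -/
noncomputable def kap (β : (Σ j, K j × A j) × Bool) (c : Co K A) : ℂ :=
  match c with
  | Sum.inl s => if β.1 = s then (if β.2 then -Complex.I / 2 else 1 / 2) else 0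
  | Sum.inr s => if β.1 = s then (if β.2 then Complex.I / 2 else 1 / 2) else 0

theorem sum_rco (t : Basis (Σ j, K j × A j) ℂ T) (u : T) :
    u = ∑ β : (Σ j, K j × A j) × Bool, rco t β u • rvec t β := by
  rw [Fintype.sum_prod_type]
  conv_lhs => rw [← t.sum_repr u]
  refine Finset.sum_congr rfl fun s _ => ?_
  rw [Fintype.sum_bool]
  simp only [rco, rvec, if_true, Bool.false_eq_true, if_false]
  rw [← Complex.coe_smul, ← Complex.coe_smul, smul_smul, ← add_smul]
  congr 1
  conv_lhs => rw [← Complex.re_add_im (t.repr u s)]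
  ring

theorem rco_eq (t : Basis (Σ j, K j × A j) ℂ T) (β : (Σ j, K j × A j) × Bool) (u : T) :
    ((rco t β u : ℝ) : ℂ) = ∑ c : Co K A, kap β c * bet t c u := by
  classical
  obtain ⟨s, ε⟩ := β
  rw [Fintype.sum_sum_type]
  simp only [kap, bet, ite_mul, zero_mul, Finset.sum_ite_eq, Finset.mem_univ, if_true]
  cases ε
  · simp only [rco, Bool.false_eq_true, if_false]
    rw [← mul_add, Complex.add_conj]
    push_cast
    ring
  · simp only [rco, if_true]
    have h1 := Complex.sub_conj (t.repr u s)
    have h2 : (-Complex.I / 2 * t.repr u s + Complex.I / 2 * starRingEnd ℂ (t.repr u s)) =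
        -Complex.I / 2 * (t.repr u s - starRingEnd ℂ (t.repr u s)) := by ring
    rw [h2, h1]
    push_cast
    have h3 : Complex.I * Complex.I = -1 := Complex.I_mul_I
    linear_combination (((t.repr u s).im : ℝ) : ℂ) * h3

open Classical in
theorem dual_bet (t : Basis (Σ j, K j × A j) ℂ T) (c c0 : Co K A) :
    ∑ β : (Σ j, K j × A j) × Bool, kap β c0 * bet t c (rvec t β) = if c = c0 then 1 else 0 := by
  rw [Fintype.sum_prod_type]
  simp only [Fintype.sum_bool]
  have hI : Complex.I * Complex.I = -1 := Complex.I_mul_I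
  obtain (s | s) := c <;> obtain (s0 | s0) := c0
  · simp only [kap, bet, rvec, if_true, Bool.false_eq_true, if_false, Sum.inl.injEq, map_smul,
      Finsupp.smul_apply, smul_eq_mul, Basis.repr_self, Finsupp.single_apply, ite_mul, zero_mul]
    rw [Finset.sum_add_distrib, Finset.sum_ite_eq', Finset.sum_ite_eq']
    simp only [Finset.mem_univ, if_true]
    by_cases h : s0 = s
    · rw [if_pos h, if_pos h.symm]
      linear_combination (-1 / 2) * hI
    · rw [if_neg h, if_neg (fun h' => h h'.symm)]
      simp
  · simp only [kap, bet, rvec, if_true, Bool.false_eq_true, if_false, map_smul, reduceCtorEq,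
      Finsupp.smul_apply, smul_eq_mul, Basis.repr_self, Finsupp.single_apply, ite_mul, zero_mul]
    rw [Finset.sum_add_distrib, Finset.sum_ite_eq', Finset.sum_ite_eq']
    simp only [Finset.mem_univ, if_true]
    by_cases h : s0 = s
    · rw [if_pos h]
      linear_combination (1 / 2) * hI
    · rw [if_neg h]
      simp
  · simp only [kap, bet, rvec, if_true, Bool.false_eq_true, if_false, map_smul, reduceCtorEq,
      Finsupp.smul_apply, smul_eq_mul, Basis.repr_self, Finsupp.single_apply, ite_mul, zero_mul]
    rw [Finset.sum_add_distrib, Finset.sum_ite_eq', Finset.sum_ite_eq']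
    simp only [Finset.mem_univ, if_true]
    by_cases h : s0 = s
    · rw [if_pos h, map_mul, Complex.conj_I, map_one]
      linear_combination (1 / 2) * hI
    · rw [if_neg h]
      simp
  · simp only [kap, bet, rvec, if_true, Bool.false_eq_true, if_false, Sum.inr.injEq, map_smul,
      Finsupp.smul_apply, smul_eq_mul, Basis.repr_self, Finsupp.single_apply, ite_mul, zero_mul]
    rw [Finset.sum_add_distrib, Finset.sum_ite_eq', Finset.sum_ite_eq']
    simp only [Finset.mem_univ, if_true]
    by_cases h : s0 = s
    · rw [if_pos h, if_pos h.symm, map_mul, Complex.conj_I, map_one]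
      linear_combination (-1 / 2) * hI
    · rw [if_neg h, if_neg (fun h' => h h'.symm)]
      simp

/-- real linear coordinate -/
noncomputable def betL (t : Basis (Σ j, K j × A j) ℂ T) (c : Co K A) : T →ₗ[ℝ] ℂ where
  toFun := bet t c
  map_add' u v := by cases c <;> simp [bet]
  map_smul' r u := by
    cases c
    · simp only [bet, RingHom.id_apply]
      rw [← Complex.coe_smul, map_smul]
      simp
    · simp only [bet, RingHom.id_apply]
      rw [← Complex.coe_smul, map_smul]
      simp

end

theorem t_Q_FORM : Q_FORM := by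
  classical
  intro J K A _ _ _ T _ _ t i
  refine ⟨fun φ => ?_, fun φ a a' ha ha' => ?_, fun a ha => ?_⟩
  · refine ⟨fun b => ∑ β : Fin i → (Σ j, K j × A j) × Bool,
      φ (fun m => rvec t (β m)) * ∏ m, kap (β m) (b m), fun σ b => ?_, fun v => ?_⟩
    · show ∑ β : Fin i → (Σ j, K j × A j) × Bool,
        φ (fun m => rvec t (β m)) * ∏ m, kap (β m) (b (σ m)) = _
      rw [Finset.mul_sum]
      refine Fintype.sum_equiv (Equiv.arrowCongr σ (Equiv.refl ((Σ j, K j × A j) × Bool))) _ _
        fun β => ?_
      have h1 : ∀ m, (Equiv.arrowCongr σ (Equiv.refl ((Σ j, K j × A j) × Bool))) β m =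
        β (σ.symm m) := fun _ => rfl
      simp only [h1]
      have h2 : φ (fun m => rvec t (β m)) = ((Equiv.Perm.sign σ : ℤ) : ℂ) *
          φ (fun m => rvec t (β (σ.symm m))) := by
        have h3 := φ.map_perm (fun m => rvec t (β (σ.symm m))) σ
        have h4 : (fun m => rvec t (β (σ.symm m))) ∘ σ = fun m => rvec t (β m) := by
          funext m
          simp
        rw [h4] at h3
        rw [h3, Units.smul_def, zsmul_eq_mul]
      rw [h2, mul_assoc]
      congr 2
      refine Fintype.prod_equiv σ _ _ fun m => ?_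
      simp
    · have h1 : φ v = φ (fun m => ∑ β : (Σ j, K j × A j) × Bool, rco t β (v m) • rvec t β) := by
        congr 1
        funext m
        exact sum_rco t (v m)
      rw [h1]
      have h2 := φ.toMultilinearMap.map_sum
        (fun (m : Fin i) (β : (Σ j, K j × A j) × Bool) => rco t β (v m) • rvec t β)
      have h3 : φ (fun m => ∑ β : (Σ j, K j × A j) × Bool, rco t β (v m) • rvec t β) =
          ∑ β : Fin i → (Σ j, K j × A j) × Bool,
            φ (fun m => rco t (β m) (v m) • rvec t (β m)) := h2
      rw [h3]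
      simp only [Finset.sum_mul]
      rw [Finset.sum_comm]
      refine Finset.sum_congr rfl fun β _ => ?_
      have h4 : φ (fun m => rco t (β m) (v m) • rvec t (β m)) =
          (∏ m, rco t (β m) (v m)) • φ (fun m => rvec t (β m)) :=
        φ.toMultilinearMap.map_smul_univ _ _
      rw [h4, Complex.real_smul]
      push_cast
      simp only [rco_eq, Finset.prod_univ_sum, Fintype.piFinset_univ, Finset.sum_mul]
      refine Finset.sum_congr rfl fun b _ => ?_
      rw [Finset.prod_mul_distrib]
      ring
  · funext b0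
    have h1 : ∀ v : Fin i → T, ∑ b : Fin i → Co K A, a b * ∏ m, bet t (b m) (v m) =
        ∑ b : Fin i → Co K A, a' b * ∏ m, bet t (b m) (v m) := fun v => by
      rw [← ha.2, ← ha'.2]
    have key : ∀ a : Arr K A i, ∑ β : Fin i → (Σ j, K j × A j) × Bool,
        (∏ m, kap (β m) (b0 m)) * ∑ b : Fin i → Co K A, a b * ∏ m, bet t (b m) (rvec t (β m)) =
        a b0 := by
      intro a
      simp only [Finset.mul_sum]
      rw [Finset.sum_comm]
      rw [Finset.sum_eq_single b0]
      · have h2 : ∀ β : Fin i → (Σ j, K j × A j) × Bool, (∏ m, kap (β m) (b0 m)) *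
            (a b0 * ∏ m, bet t (b0 m) (rvec t (β m))) =
            a b0 * ∏ m, (kap (β m) (b0 m) * bet t (b0 m) (rvec t (β m))) := fun β => by
          rw [Finset.prod_mul_distrib]
          ring
        simp only [h2]
        rw [← Finset.mul_sum, sum_prod' (fun m β => kap β (b0 m) * bet t (b0 m) (rvec t β))]
        simp only [dual_bet, if_true, Finset.prod_const_one, mul_one]
      · intro b _ hb
        have : ∃ m, b m ≠ b0 m := by
          by_contra h
          push Not at h
          exact hb (funext h)
        obtain ⟨m, hm⟩ := this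
        have h2 : ∀ β : Fin i → (Σ j, K j × A j) × Bool, (∏ m, kap (β m) (b0 m)) *
            (a b * ∏ m, bet t (b m) (rvec t (β m))) =
            a b * ∏ m, (kap (β m) (b0 m) * bet t (b m) (rvec t (β m))) := fun β => by
          rw [Finset.prod_mul_distrib]
          ring
        simp only [h2]
        rw [← Finset.mul_sum, sum_prod' (fun m β => kap β (b0 m) * bet t (b m) (rvec t β))]
        rw [Finset.prod_eq_zero (Finset.mem_univ m), mul_zero]
        rw [dual_bet, if_neg hm]
      · intro h
        exact absurd (Finset.mem_univ _) h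
    rw [← key a, ← key a']
    refine Finset.sum_congr rfl fun β _ => ?_
    rw [h1 (fun m => rvec t (β m))]
  · let ψ : MultilinearMap ℝ (fun _ : Fin i => T) ℂ := ∑ b : Fin i → Co K A,
      a b • (MultilinearMap.mkPiAlgebra ℝ (Fin i) ℂ).compLinearMap (fun m => betL t (b m))
    have hψ : ∀ v, ψ v = ∑ b : Fin i → Co K A, a b * ∏ m, bet t (b m) (v m) := by
      intro v
      simp only [ψ, sum_apply, smul_apply,
        MultilinearMap.compLinearMap_apply, MultilinearMap.mkPiAlgebra_apply, smul_eq_mul]
      rfl
    have hperm : ∀ (σ : Equiv.Perm (Fin i)) (v : Fin i → T), ψ (fun m => v (σ m)) =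
        ((Equiv.Perm.sign σ : ℤ) : ℂ) * ψ v := by
      intro σ v
      rw [hψ, hψ, Finset.mul_sum]
      refine Fintype.sum_equiv (Equiv.arrowCongr σ (Equiv.refl (Co K A))) _ _ fun b => ?_
      have h1 : (Equiv.arrowCongr σ (Equiv.refl (Co K A))) b = b ∘ σ.symm := rfl
      rw [h1]
      have h2 : a b = ((Equiv.Perm.sign σ : ℤ) : ℂ) * a (b ∘ σ.symm) := by
        have := ha σ (b ∘ σ.symm)
        rwa [Function.comp_assoc, Equiv.symm_comp_self, Function.comp_id] at this
      rw [h2, mul_assoc]
      congr 2
      refine Fintype.prod_equiv σ _ _ fun m => ?_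
      simp
    refine ⟨{ ψ with map_eq_zero_of_eq' := ?_ }, ha, fun v => hψ v⟩
    intro v p q hv hpq
    have h1 := hperm (Equiv.swap p q) v
    have h2 : (fun m => v (Equiv.swap p q m)) = v := by
      funext m
      by_cases hp : m = p
      · rw [hp, Equiv.swap_apply_left, hv]
      · by_cases hq : m = q
        · rw [hq, Equiv.swap_apply_right, hv]
        · rw [Equiv.swap_apply_of_ne_of_ne hp hq]
    rw [h2, Equiv.Perm.sign_swap hpq] at h1
    have h5 : (((-1 : ℤˣ) : ℤ) : ℂ) = -1 := by norm_num
    rw [h5] at h1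
    have h4 : ψ v = 0 := by linear_combination (1 / 2 : ℂ) * h1
    exact h4

end Pool.Agent.K2h1.Q15
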