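import Mathlib
import Pool.Agent.Z15.Q.Stm

/-! Tasks Q_HW and Q_AM (helper1). -/

set_option autoImplicit false

namespace Pool.Agent.K2h1.Q15

open Pool.Agent.Z15.Q

theorem cnt_eq {J : Type} {K A : J → Type} {i : ℕ} (b : Fin i → Co K A) :
    cnt b = ∑ m : Fin i, if (b m).isRight = true then 1 else 0 := by
  unfold cnt
  rw [Finset.card_filter]

theorem cnt_cons {J : Type} {K A : J → Type} {i : ℕ} (s : Co K A) (b : Fin i → Co K A) :
    cnt (Fin.cons s b : Fin (i + 1) → Co K A) = (if s.isRight = true then 1 else 0) + cnt b := by
  rw [cnt_eq, cnt_eq, Fin.sum_univ_succ]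
  simp only [Fin.cons_zero, Fin.cons_succ]

theorem t_Q_HWi : Q_HWi := by
  intro hB hA hG J K A _ _ _ i q c
  induction c generalizing i q with
  | zero =>
    intro a _ _ _ hv hne
    exact absurd (by simpa only [Van] using hv) hne
  | succ c ih =>
    intro a ha hX hq hv hne
    by_contra hcon
    have hq0 : 0 < q := by omega
    have key : ¬ Van 1 i a := fun h1 => hne (funext fun b => by
      by_cases hb : cnt b = q
      · exact hB J K A i a ha h1 hX b (hb ▸ hq0)
      · exact hq b hb)
    match i, a, ha, hX, hq, hv, hne, key with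
    | 0, a, ha, hX, hq, hv, hne, key => exact key (by simp only [Van])
    | 1, a, ha, hX, hq, hv, hne, key => exact key (by simp only [Van])
    | i + 2, a, ha, hX, hq, hv, hne, key =>
      have h2 : ∃ (j : J) (α β : A j), con j α β a ≠ 0 := by
        by_contra h
        push Not at h
        exact key (by simp only [Van]; exact h)
      obtain ⟨j, α, β, hne'⟩ := h2
      have hX' : XKill (con j α β a) := by
        intro j' k l
        rw [← (hA J K A).1 i a ha j' k l j α β, hX j' k l]
        funext τ
        simp [con]
      have hq' : ∀ b, cnt b ≠ q - 1 → con j α β a b = 0 := by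
        intro b hb
        unfold con
        refine Finset.sum_eq_zero fun k _ => ?_
        rw [hq _ (by rw [cnt_cons, cnt_cons]; simp; omega),
          hq _ (by rw [cnt_cons, cnt_cons]; simp; omega), add_zero]
      have hv' : Van c i (con j α β a) := by
        simp only [Van] at hv
        exact hv j α β
      have h3 := ih i (q - 1) (con j α β a) ((hA J K A).2.1 i a j α β ha) hX' hq' hv' hne'
      omega

theorem t_Q_AMi : Q_AMi := by
  intro hPB hCORE hDUAL J K A _ _ _ i c ι _ x M h a ha
  refine hDUAL J K A i c _ ?_ ?_
  · intro σ b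
    simp only [eop, Finset.sum_apply, Pi.smul_apply, smul_eq_mul, Finset.mul_sum]
    refine Finset.sum_congr rfl fun l _ => ?_
    rw [(hPB J K A (M l)).2.2.1 i a ha σ b]
    ring
  · intro a' ha' hv
    have h1 := hCORE J K A i c ι x M h a' ha' hv
    have h2 : ∀ l, ∑ b, pb (M l) a b * starRingEnd ℂ (a' b) =
        ∑ b, a b * starRingEnd ℂ (pb (fun j => (M l j).transpose) a' b) :=
      fun l => (hPB J K A (M l)).2.2.2.1 i a a'
    calc ∑ b, eop x M a b * starRingEnd ℂ (a' b)
        = ∑ l, (x l : ℂ) * ∑ b, pb (M l) a b * starRingEnd ℂ (a' b) := by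
          simp only [eop, Finset.sum_apply, Pi.smul_apply, smul_eq_mul, Finset.sum_mul,
            Finset.mul_sum]
          rw [Finset.sum_comm]
          refine Finset.sum_congr rfl fun l _ => Finset.sum_congr rfl fun b _ => ?_
          ring
      _ = ∑ l, (x l : ℂ) * ∑ b, a b * starRingEnd ℂ (pb (fun j => (M l j).transpose) a' b) :=
          Finset.sum_congr rfl fun l _ => by rw [h2 l]
      _ = ∑ b, a b * starRingEnd ℂ (eop x (fun l j => (M l j).transpose) a' b) := by
          simp only [eop, Finset.sum_apply, Pi.smul_apply, smul_eq_mul, map_sum, map_mul,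
            Complex.conj_ofReal, Finset.mul_sum]
          rw [Finset.sum_comm]
          refine Finset.sum_congr rfl fun b _ => Finset.sum_congr rfl fun l _ => ?_
          ring
      _ = 0 := by
          rw [h1]
          simp

end Pool.Agent.K2h1.Q15
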