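import Mathlib
import Pool.Agent.Z15.Q.Stm
import Pool.Agent.K2h1.Q15.Q_HW

/-! Task Q_PULL (helper1). -/

set_option autoImplicit false

namespace Pool.Agent.K2h1.Q15

open Module Pool.Agent.Z15.Q Pool.Agent.W546.GHC

section

variable {J : Type} {K A : J → Type}

open Classical in
/-- the matrix of the action on the coordinates -/
noncomputable def Pm [∀ j, Fintype (A j)] (M : ∀ j, Matrix (A j) (A j) ℝ) (c c' : Co K A) : ℂ :=
  ∑ γ : A (jOf c'), if setA c' γ = c then ((M (jOf c') γ (aOf c') : ℝ) : ℂ) else 0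

open Classical in
theorem sum_sigma_aux [Fintype J] [∀ j, Fintype (K j)] [∀ j, Fintype (A j)]
    (M : ∀ j, Matrix (A j) (A j) ℝ) (j : J) (k : K j) (α : A j) (f : (Σ j, K j × A j) → ℂ) :
    ∑ s' : (Σ j, K j × A j), (∑ γ : A s'.1, if (⟨s'.1, s'.2.1, γ⟩ : Σ j, K j × A j) = ⟨j, k, α⟩ then
      ((M s'.1 γ s'.2.2 : ℝ) : ℂ) else 0) * f s' =
      ∑ β : A j, ((M j α β : ℝ) : ℂ) * f ⟨j, k, β⟩ := by
  rw [Fintype.sum_sigma]
  rw [Finset.sum_eq_single j]
  · rw [Fintype.sum_prod_type]
    rw [Finset.sum_eq_single k]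
    · refine Finset.sum_congr rfl fun β _ => ?_
      congr 1
      rw [Finset.sum_eq_single α]
      · simp
      · intro γ _ hγ
        rw [if_neg]
        intro h
        simp only [Sigma.mk.injEq, heq_eq_eq, Prod.mk.injEq, true_and] at h
        exact hγ h
      · intro h
        exact absurd (Finset.mem_univ _) h
    · intro k' _ hk
      refine Finset.sum_eq_zero fun β _ => ?_
      rw [Finset.sum_eq_zero, zero_mul]
      intro γ _
      rw [if_neg]
      intro h
      simp only [Sigma.mk.injEq, heq_eq_eq, Prod.mk.injEq, true_and] at h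
      exact hk h.1
    · intro h
      exact absurd (Finset.mem_univ _) h
  · intro j' _ hj
    refine Finset.sum_eq_zero fun β _ => ?_
    rw [Finset.sum_eq_zero, zero_mul]
    intro γ _
    rw [if_neg]
    intro h
    simp only [Sigma.mk.injEq] at h
    exact hj h.1
  · intro h
    exact absurd (Finset.mem_univ _) h

theorem bet_rho [Fintype J] [∀ j, Fintype (K j)] [∀ j, Fintype (A j)] {T : Type}
    [AddCommGroup T] [Module ℂ T] (t : Basis (Σ j, K j × A j) ℂ T) (ρ : T →ₗ[ℂ] T)
    (M : ∀ j, Matrix (A j) (A j) ℝ) (h : ∀ (u : T) (j : J) (k : K j) (α : A j),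
      t.repr (ρ u) ⟨j, k, α⟩ = ∑ β : A j, ((M j α β : ℝ) : ℂ) * t.repr u ⟨j, k, β⟩)
    (c : Co K A) (u : T) : bet t c (ρ u) = ∑ c' : Co K A, Pm M c c' * bet t c' u := by
  classical
  rw [Fintype.sum_sum_type]
  obtain (⟨j, k, α⟩ | ⟨j, k, α⟩) := c
  · have h2 : ∑ s' : (Σ j, K j × A j), Pm M (Sum.inl ⟨j, k, α⟩ : Co K A) (Sum.inr s') *
        bet t (Sum.inr s') u = 0 := by
      refine Finset.sum_eq_zero fun s' _ => ?_
      have : Pm M (Sum.inl ⟨j, k, α⟩ : Co K A) (Sum.inr s') = 0 := by
        unfold Pm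
        refine Finset.sum_eq_zero fun γ _ => ?_
        rw [if_neg]
        simp [setA]
      rw [this, zero_mul]
    rw [h2, add_zero]
    show t.repr (ρ u) ⟨j, k, α⟩ = _
    rw [h u j k α, ← sum_sigma_aux M j k α (fun s => t.repr u s)]
    refine Finset.sum_congr rfl fun s' _ => ?_
    unfold Pm bet
    congr 1
    refine Finset.sum_congr rfl fun γ _ => ?_
    simp only [setA, jOf, aOf, Sum.inl.injEq]
  · have h2 : ∑ s' : (Σ j, K j × A j), Pm M (Sum.inr ⟨j, k, α⟩ : Co K A) (Sum.inl s') *
        bet t (Sum.inl s') u = 0 := by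
      refine Finset.sum_eq_zero fun s' _ => ?_
      have : Pm M (Sum.inr ⟨j, k, α⟩ : Co K A) (Sum.inl s') = 0 := by
        unfold Pm
        refine Finset.sum_eq_zero fun γ _ => ?_
        rw [if_neg]
        simp [setA]
      rw [this, zero_mul]
    rw [h2, zero_add]
    show starRingEnd ℂ (t.repr (ρ u) ⟨j, k, α⟩) = _
    rw [h u j k α, map_sum]
    simp only [map_mul, Complex.conj_ofReal]
    rw [← sum_sigma_aux M j k α (fun s => starRingEnd ℂ (t.repr u s))]
    refine Finset.sum_congr rfl fun s' _ => ?_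
    unfold Pm bet
    congr 1
    refine Finset.sum_congr rfl fun γ _ => ?_
    simp only [setA, jOf, aOf, Sum.inr.injEq]

theorem pb_eq [Fintype J] [∀ j, Fintype (K j)] [∀ j, Fintype (A j)]
    (M : ∀ j, Matrix (A j) (A j) ℝ) {i : ℕ} (a : Arr K A i) (b' : Fin i → Co K A) :
    ∑ b : Fin i → Co K A, a b * ∏ m, Pm M (b m) (b' m) = pb M a b' := by
  classical
  unfold Pm pb
  simp only [Finset.prod_univ_sum, Fintype.piFinset_univ, Finset.mul_sum]
  rw [Finset.sum_comm]
  refine Finset.sum_congr rfl fun γ _ => ?_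
  rw [Finset.sum_eq_single (fun m => setA (b' m) (γ m))]
  · simp only [if_true]
    rw [mul_comm]
  · intro b _ hb
    have : ∃ m, setA (b' m) (γ m) ≠ b m := by
      by_contra h
      push Not at h
      exact hb (funext fun m => (h m).symm)
    obtain ⟨m, hm⟩ := this
    rw [Finset.prod_eq_zero (Finset.mem_univ m) (if_neg hm), mul_zero]
  · intro h
    exact absurd (Finset.mem_univ _) h

theorem anti_pb [Fintype J] [∀ j, Fintype (K j)] [∀ j, Fintype (A j)]
    (M : ∀ j, Matrix (A j) (A j) ℝ) {i : ℕ} (a : Arr K A i) (ha : Anti a) : Anti (pb M a) := by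
  intro σ b
  rw [← pb_eq, ← pb_eq, Finset.mul_sum]
  refine Fintype.sum_equiv (Equiv.arrowCongr σ (Equiv.refl (Co K A))) _ _ fun b' => ?_
  have h1 : (Equiv.arrowCongr σ (Equiv.refl (Co K A))) b' = b' ∘ σ.symm := rfl
  rw [h1]
  have h2 : a b' = ((Equiv.Perm.sign σ : ℤ) : ℂ) * a (b' ∘ σ.symm) := by
    have := ha σ (b' ∘ σ.symm)
    rwa [Function.comp_assoc, Equiv.symm_comp_self, Function.comp_id] at this
  rw [h2, mul_assoc]
  congr 2
  refine Fintype.prod_equiv σ _ _ fun m => ?_
  simp

end

theorem t_Q_PULL : Q_PULL := by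
  intro J K A _ _ _ T _ _ t i φ a hφ
  refine ⟨fun q hq hcnt z u => ?_, fun ρ M h => ⟨anti_pb M a hφ.1, fun v => ?_⟩⟩
  · rw [hφ.2, hφ.2, Finset.mul_sum]
    refine Finset.sum_congr rfl fun b _ => ?_
    by_cases hb : cnt b = q
    · have h1 : ∀ (c : Co K A) (w : T), bet t c (z • w) =
          (if c.isRight = true then starRingEnd ℂ z else z) * bet t c w := by
        intro c w
        cases c <;> simp [bet]
      simp only [h1, Finset.prod_mul_distrib]
      have h2 : ∏ m : Fin i, (if (b m).isRight = true then starRingEnd ℂ z else z) =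
          z ^ (i - q) * (starRingEnd ℂ z) ^ q := by
        rw [Finset.prod_ite, Finset.prod_const, Finset.prod_const]
        have h3 : (Finset.univ.filter fun m => (b m).isRight = true).card = q := hb
        have h4 : (Finset.univ.filter fun m => ¬ (b m).isRight = true).card = i - q := by
          have h5 := Finset.card_filter_add_card_filter_not (s := (Finset.univ : Finset (Fin i)))
            (fun m => (b m).isRight = true)
          rw [h3, Finset.card_univ, Fintype.card_fin] at h5
          omega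
        rw [h3, h4, mul_comm]
      rw [h2]
      ring
    · rw [hcnt b hb]
      ring
  · show φ (fun l => ρ (v l)) = _
    rw [hφ.2]
    simp only [bet_rho t ρ M h, Finset.prod_univ_sum, Fintype.piFinset_univ, Finset.mul_sum]
    rw [Finset.sum_comm]
    refine Finset.sum_congr rfl fun b' _ => ?_
    rw [← pb_eq, Finset.sum_mul]
    refine Finset.sum_congr rfl fun b _ => ?_
    rw [Finset.prod_mul_distrib]
    ring

end Pool.Agent.K2h1.Q15
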